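import Mathlib
import Pool.Agent.TH477.NA.Frozen
import Pool.Agent.TH477.NA.GD4

/-!
Finitely presented nonassociative algebras over the rationals have computable complete invariants
which are finite-dimensional algebras: there is a computable map `G` from finite presentations to
structure constants of finite-dimensional rational algebras such that two presented algebras are
isomorphic if and only if the finite-dimensional algebras of their presentations are. Conversely a
finite-dimensional algebra is computably turned into a finite presentation. So the isomorphism
problem for finitely presented nonassociative algebras over the rationals is decidable if and only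
if the one for finite-dimensional nonassociative algebras over the rationals is decidable.
-/

set_option autoImplicit false

namespace Pool.Agent.Results.MP_9ac17e_al.ComputableInvariant

open Pool.Agent.TH477.NA

attribute [-instance] iWord iCo iTerm iPo iLPo iStep iCE iCert iLCert iPres iPP iICert iRel1 iRel
  iRels iPCode iPCPC iSC1 iSCert iTab iLS iCC iCC2 iII iNon iNN iT1 iT2 iT3 iFCode iFF iCLP iW1 iW2
  iW3

theorem result :
    (∃ G : ℕ × List (List ((ℕ × ℕ) × List ℕ)) → Q.FCode, Computable G ∧
      ∀ p q, Q.PresIso p q ↔ Q.FDIso (G p) (G q)) ∧
    (∃ H : Q.FCode → ℕ × List (List ((ℕ × ℕ) × List ℕ)), Computable H ∧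
      ∀ a b, Q.FDIso a b ↔ Q.PresIso (H a) (H b)) ∧
    (Q.IsoProblem ↔ ComputablePred fun ab : Q.FCode × Q.FCode => Q.FDIso ab.1 ab.2) := by
  refine ⟨?_, ?_, ?_⟩
  · obtain ⟨G, hG, h⟩ := exists_invariant
    exact ⟨G, hG, fun p q => (presIso_iff p q).trans (h p q)⟩
  · exact ⟨fpres, pr_fpres.to_comp, fun a b => (fdIso_iff_iso a b).trans (presIso_iff _ _).symm⟩
  · exact isoProblem_iff_fd

end Pool.Agent.Results.MP_9ac17e_al.ComputableInvariant
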