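import Mathlib
import Pool.Agent.TH477.NA.Stmt

set_option autoImplicit false

/-!
Classification of the finitely presented nonassociative algebras over an arbitrary field by finite
dimensional data.

The *factors* of a subspace `T` of a nonassociative algebra `A` are the elements occurring in sums
`a₁b₁ + ⋯ + a_k b_k ∈ T` with linearly independent `a_i` and linearly independent `b_i` (this is
the support of `m⁻¹(T)`, where `m : A ⊗ A → A` is the multiplication). The *core* of `A` is the sum
of all finite-dimensional subspaces `T` contained in the span of their factors. It is defined
without reference to a presentation, and carries a partial multiplication.

* If `A` is finitely presented, the core is finite-dimensional and `A / (core + A²)` is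
  finite-dimensional, of dimension `Rank A`.
* Two finitely presented algebras are isomorphic if and only if their ranks are equal and their
  cores are isomorphic as partial algebras.
* Both invariants are computed by finite-dimensional linear algebra from a presentation.

So the isomorphism problem for finitely presented nonassociative algebras over `F` is the
isomorphism problem for finite-dimensional partial algebras over `F`.
-/

namespace Pool.Agent.Results.MP_9ac17e_al.CoreClassification

open Pool.Agent.TH477.NA

universe u v w

theorem result (F : Type u) [Field F] :
    Finiteness.{u, v} F ∧ Classification.{u, v, w} F ∧ InvComputed.{u, v} F :=
  ⟨finiteness F, classification F, computation F⟩

end Pool.Agent.Results.MP_9ac17e_al.CoreClassification
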